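import Pool.Agent.Helper89.TQ.Spec

/-!
MP_5465ec_co, Q2: the bridge from games to rows.
-/

set_option autoImplicit false

namespace Pool.Agent.Helper10.TQ.BRIDGE

open Finset Pool.Agent.R6.Trade Pool.Agent.Helper89.TQ

variable {N : Type} [Fintype N] [DecidableEq N]

lemma vec_insert (τ : N → Fin 3) {S : Finset N} {u : N} (hu : u ∉ S) (i : Fin 3) :
    vec τ (insert u S) i = vec τ S i + if τ u = i then 1 else 0 := by
  unfold vec
  rw [filter_insert]
  by_cases h : τ u = i
  · rw [if_pos h, if_pos h, card_insert_of_notMem]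
    simp [hu]
  · rw [if_neg h, if_neg h]
    rfl

lemma ex_out {τ : N → Fin 3} {S : Finset N} {i : Fin 3} (h : vec τ S i < nn τ i) :
    ∃ u, u ∉ S ∧ τ u = i := by
  by_contra hcon
  push Not at hcon
  have : univ.filter (fun v => τ v = i) ⊆ S.filter (fun v => τ v = i) := by
    intro v hv
    have hv' := (mem_filter.1 hv).2
    refine mem_filter.2 ⟨?_, hv'⟩
    by_contra h1
    exact hcon v h1 hv'
  have h2 := card_le_card this
  unfold vec nn at h
  omega

lemma ex_in {τ : N → Fin 3} {S : Finset N} {i : Fin 3} (h : 0 < vec τ S i) :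
    ∃ u, u ∈ S ∧ τ u = i := by
  obtain ⟨u, hu⟩ := card_pos.1 h
  exact ⟨u, (mem_filter.1 hu).1, (mem_filter.1 hu).2⟩

/-- adding a voter of type `i` -/
lemma move1 {W : Finset N → Prop} {τ : N → Fin 3} (hmono : ∀ S T : Finset N, S ⊆ T → W S → W T)
    {S : Finset N} (hW : W S) {i : Fin 3} (h : vec τ S i < nn τ i) :
    ∃ S', W S' ∧ ∀ k, vec τ S' k = vec τ S k + if i = k then 1 else 0 := by
  obtain ⟨u, hu, hi⟩ := ex_out h
  refine ⟨insert u S, hmono _ _ (subset_insert _ _) hW, fun k => ?_⟩
  rw [vec_insert τ hu, hi]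

/-- replacing a voter of type `j` by a voter of type `i < j` -/
lemma move2 {W : Finset N → Prop} {τ : N → Fin 3} (hA : ∀ u v, AtLeast W u v ↔ τ u ≤ τ v)
    {S : Finset N} (hW : W S) {i j : Fin 3} (hij : i < j) (h : vec τ S i < nn τ i) (hj : 0 < vec τ S j) :
    ∃ S', W S' ∧ ∀ k, (vec τ S' k + if j = k then 1 else 0) = vec τ S k + if i = k then 1 else 0 := by
  obtain ⟨u, hu, hi⟩ := ex_out h
  obtain ⟨v, hv, hjv⟩ := ex_in hj
  have h1 : AtLeast W u v := (hA u v).2 (by rw [hi, hjv]; exact hij.le)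
  have huE : u ∉ S.erase v := fun h => hu (mem_of_mem_erase h)
  have hvE : v ∉ S.erase v := notMem_erase v S
  refine ⟨insert u (S.erase v), h1 _ huE hvE (by rwa [insert_erase hv]), fun k => ?_⟩
  have h2 := vec_insert τ hvE k
  rw [insert_erase hv] at h2
  rw [vec_insert τ huE, h2, hi, hjv]
  omega

/-- shift monotonicity -/
lemma mono {W : Finset N → Prop} {τ : N → Fin 3} (hmono : ∀ S T : Finset N, S ⊆ T → W S → W T)
    (hA : ∀ u v, AtLeast W u v ↔ τ u ≤ τ v) (T : Finset N) : ∀ (n : ℕ) (S : Finset N), W S →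
      GE (vec τ T) (vec τ S) → 3 * vec τ T 0 + 2 * vec τ T 1 + vec τ T 2 =
        3 * vec τ S 0 + 2 * vec τ S 1 + vec τ S 2 + n → W T := by
  intro n
  induction n using Nat.strong_induction_on with
  | _ n ih =>
    intro S hW hG hn
    obtain ⟨g0, g1, g2⟩ := hG
    have b0 := vec_le τ T 0
    have b1 := vec_le τ T 1
    have b2 := vec_le τ T 2
    rcases Nat.eq_zero_or_pos n with h0 | h0
    · apply win_of_vec_eq hmono τ (fun a b hab => (hA a b).2 hab.le) _ S T rfl _ hW
      funext k
      fin_cases k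
      · show vec τ S 0 = vec τ T 0
        omega
      · show vec τ S 1 = vec τ T 1
        omega
      · show vec τ S 2 = vec τ T 2
        omega
    have fin : ∀ S' : Finset N, W S' → GE (vec τ T) (vec τ S') →
        3 * vec τ S 0 + 2 * vec τ S 1 + vec τ S 2 < 3 * vec τ S' 0 + 2 * vec τ S' 1 + vec τ S' 2 → W T := by
      intro S' hW' hG' hlt
      have hG2 := hG'
      obtain ⟨g0', g1', g2'⟩ := hG2
      exact ih (3 * vec τ T 0 + 2 * vec τ T 1 + vec τ T 2 -
        (3 * vec τ S' 0 + 2 * vec τ S' 1 + vec τ S' 2)) (by omega) S' hW' hG' (by omega)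
    by_cases c0 : vec τ S 0 < vec τ T 0
    · by_cases c1 : vec τ S 0 + vec τ S 1 = vec τ T 0 + vec τ T 1
      · obtain ⟨S', hW', hv⟩ := move2 (i := 0) (j := 1) hA hW (by decide) (by omega) (by omega)
        have e0 := hv 0
        have e1 := hv 1
        have e2 := hv 2
        simp at e0 e1 e2
        exact fin S' hW' ⟨by omega, by omega, by omega⟩ (by omega)
      · by_cases c2 : vec τ S 0 + vec τ S 1 + vec τ S 2 = vec τ T 0 + vec τ T 1 + vec τ T 2
        · obtain ⟨S', hW', hv⟩ := move2 (i := 0) (j := 2) hA hW (by decide) (by omega) (by omega)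
          have e0 := hv 0
          have e1 := hv 1
          have e2 := hv 2
          simp at e0 e1 e2
          exact fin S' hW' ⟨by omega, by omega, by omega⟩ (by omega)
        · obtain ⟨S', hW', hv⟩ := move1 (τ := τ) (i := 0) hmono hW (by omega)
          have e0 := hv 0
          have e1 := hv 1
          have e2 := hv 2
          simp at e0 e1 e2
          exact fin S' hW' ⟨by omega, by omega, by omega⟩ (by omega)
    · by_cases c1 : vec τ S 0 + vec τ S 1 < vec τ T 0 + vec τ T 1
      · by_cases c2 : vec τ S 0 + vec τ S 1 + vec τ S 2 = vec τ T 0 + vec τ T 1 + vec τ T 2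
        · obtain ⟨S', hW', hv⟩ := move2 (i := 1) (j := 2) hA hW (by decide) (by omega) (by omega)
          have e0 := hv 0
          have e1 := hv 1
          have e2 := hv 2
          simp at e0 e1 e2
          exact fin S' hW' ⟨by omega, by omega, by omega⟩ (by omega)
        · obtain ⟨S', hW', hv⟩ := move1 (τ := τ) (i := 1) hmono hW (by omega)
          have e0 := hv 0
          have e1 := hv 1
          have e2 := hv 2
          simp at e0 e1 e2
          exact fin S' hW' ⟨by omega, by omega, by omega⟩ (by omega)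
      · obtain ⟨S', hW', hv⟩ := move1 (τ := τ) (i := 2) hmono hW (by omega)
        have e0 := hv 0
        have e1 := hv 1
        have e2 := hv 2
        simp at e0 e1 e2
        exact fin S' hW' ⟨by omega, by omega, by omega⟩ (by omega)

lemma ge_trans {x y z : Fin 3 → ℕ} (h1 : GE x y) (h2 : GE y z) : GE x z := by
  obtain ⟨a0, a1, a2⟩ := h1
  obtain ⟨b0, b1, b2⟩ := h2
  exact ⟨by omega, by omega, by omega⟩

lemma ge_refl (x : Fin 3 → ℕ) : GE x x := ⟨le_rfl, le_rfl, le_rfl⟩

/-- every winning vector is above a minimal one -/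
lemma above {W : Finset N → Prop} {τ : N → Fin 3} : ∀ (n : ℕ) (S : Finset N), W S →
    3 * vec τ S 0 + 2 * vec τ S 1 + vec τ S 2 = n → ∃ v, MinWin W τ v ∧ GE (vec τ S) v := by
  intro n
  induction n using Nat.strong_induction_on with
  | _ n ih =>
    intro S hW hn
    by_cases hm : ∀ S', W S' → GE (vec τ S) (vec τ S') → vec τ S' = vec τ S
    · exact ⟨vec τ S, ⟨⟨S, hW, rfl⟩, hm⟩, ge_refl _⟩
    · push Not at hm
      obtain ⟨S', hW', hG, hne⟩ := hm
      have hG2 := hG
      obtain ⟨g0, g1, g2⟩ := hG2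
      have hlt : 3 * vec τ S' 0 + 2 * vec τ S' 1 + vec τ S' 2 < n := by
        by_contra hge
        apply hne
        funext k
        fin_cases k
        · show vec τ S' 0 = vec τ S 0
          omega
        · show vec τ S' 1 = vec τ S 1
          omega
        · show vec τ S' 2 = vec τ S 2
          omega
      obtain ⟨v, hv, hGv⟩ := ih _ hlt S' hW' rfl
      exact ⟨v, hv, ge_trans hG hGv⟩

theorem main : S_BRIDGE := by
  intro N _ _ W τ a b hS hsur hA hab hmin
  obtain ⟨-, -, hmono⟩ := hS
  have ha : MinWin W τ a := (hmin a).2 (Or.inl rfl)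
  have hb : MinWin W τ b := (hmin b).2 (Or.inr rfl)
  obtain ⟨⟨Sa, hWa, hva⟩, hma⟩ := ha
  obtain ⟨⟨Sb, hWb, hvb⟩, hmb⟩ := hb
  have hiff : ∀ S, W S ↔ Win a b (vec τ S) := by
    intro S
    constructor
    · intro hW
      obtain ⟨v, hv, hG⟩ := above _ S hW rfl
      rcases (hmin v).1 hv with h | h
      · left; rw [← h]; exact hG
      · right; rw [← h]; exact hG
    · rintro (h | h)
      · rw [← hva] at h
        have h' := h
        obtain ⟨g0, g1, g2⟩ := h'
        exact mono hmono hA S (3 * vec τ S 0 + 2 * vec τ S 1 + vec τ S 2 -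
          (3 * vec τ Sa 0 + 2 * vec τ Sa 1 + vec τ Sa 2)) Sa hWa h (by omega)
      · rw [← hvb] at h
        have h' := h
        obtain ⟨g0, g1, g2⟩ := h'
        exact mono hmono hA S (3 * vec τ S 0 + 2 * vec τ S 1 + vec τ S 2 -
          (3 * vec τ Sb 0 + 2 * vec τ Sb 1 + vec τ Sb 2)) Sb hWb h (by omega)
  refine ⟨fun i => by rw [← hva]; exact vec_le τ Sa i, fun i => by rw [← hvb]; exact vec_le τ Sb i,
    ?_, ?_, ?_, ?_, hiff⟩
  · intro h
    rw [← hvb] at h
    exact hab ((hma Sb hWb h).symm.trans hvb)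
  · intro h
    rw [← hva] at h
    exact hab (hva.symm.trans (hmb Sa hWa h))
  · obtain ⟨u, hu⟩ := hsur 0
    obtain ⟨v, hv⟩ := hsur 1
    have h1 : ¬ AtLeast W v u := by
      rw [hA v u, hu, hv]
      decide
    unfold AtLeast at h1
    push Not at h1
    obtain ⟨S, hvS, huS, hWu, hWv⟩ := h1
    have hb1 := vec_le τ (insert v S) 1
    rw [hiff] at hWu hWv
    have u0 := vec_insert τ huS 0
    have u1 := vec_insert τ huS 1
    have u2 := vec_insert τ huS 2
    have v0 := vec_insert τ hvS 0
    have v1 := vec_insert τ hvS 1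
    have v2 := vec_insert τ hvS 2
    rw [hu] at u0 u1 u2
    rw [hv] at v0 v1 v2
    simp at u0 u1 u2 v0 v1 v2
    unfold Win GE at hWu hWv
    rw [u0, u1, u2] at hWu
    rw [v0, v1, v2] at hWv
    rw [v1] at hb1
    rcases hWu with h | h
    · left; omega
    · right; omega
  · obtain ⟨u, hu⟩ := hsur 1
    obtain ⟨v, hv⟩ := hsur 2
    have h1 : ¬ AtLeast W v u := by
      rw [hA v u, hu, hv]
      decide
    unfold AtLeast at h1
    push Not at h1
    obtain ⟨S, hvS, huS, hWu, hWv⟩ := h1
    have hb2 := vec_le τ (insert v S) 2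
    rw [hiff] at hWu hWv
    have u0 := vec_insert τ huS 0
    have u1 := vec_insert τ huS 1
    have u2 := vec_insert τ huS 2
    have v0 := vec_insert τ hvS 0
    have v1 := vec_insert τ hvS 1
    have v2 := vec_insert τ hvS 2
    rw [hu] at u0 u1 u2
    rw [hv] at v0 v1 v2
    simp at u0 u1 u2 v0 v1 v2
    unfold Win GE at hWu hWv
    rw [u0, u1, u2] at hWu
    rw [v0, v1, v2] at hWv
    rw [v2] at hb2
    rcases hWu with h | h
    · left; omega
    · right; omega

end Pool.Agent.Helper10.TQ.BRIDGE
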