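import Pool.Agent.Helper89.TQ.Ctx

set_option autoImplicit false
set_option linter.all false
set_option maxHeartbeats 4000000

namespace Pool.Agent.Helper10.TQ

open Pool.Agent.Helper89.TQ

theorem c0_11_22_33_k1 {n1 n2 n3 A1 A2 A3 B1 B2 B3 m11_1 m11_2 m11_3 m13_1 m13_2 m13_3 m22_1 m22_2 m22_3 m23_1 m23_2 m23_3 m33_1 m33_2 m33_3 : ℤ}
    (C : Ctx0 n1 n2 n3 A1 A2 A3 B1 B2 B3 m11_1 m11_2 m11_3 m13_1 m13_2 m13_3 m22_1 m22_2 m22_3 m23_1 m23_2 m23_3 m33_1 m33_2 m33_3)
    (e0 : 0 < B1)
    (e1 : 0 < B2)
    (e2 : 0 < A3)
    (s1 : 1 * A1 + 2 * B1 ≤ m11_1 + m22_1 + m33_1)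
    (s2 : 1 * A2 + 2 * B2 ≤ m11_2 + m22_2 + m33_2)
    (s3 : 1 * A3 + 2 * B3 ≤ m11_3 + m22_3 + m33_3) : False := by
  have u_a0 := C.a0
  have u_a1 := C.a1
  have u_a2 := C.a2
  have u_a3 := C.a3
  have u_a4 := C.a4
  have u_a5 := C.a5
  have u_b0 := C.b0
  have u_b1 := C.b1
  have u_b2 := C.b2
  have u_b3 := C.b3
  have u_b4 := C.b4
  have u_b5 := C.b5
  have u_o0 := C.o0
  have u_o1 := C.o1
  have u_o2 := C.o2
  have u_f11_0 := C.f11_0
  have u_f11_1 := C.f11_1
  have u_f11_2 := C.f11_2
  have u_f13_0 := C.f13_0
  have u_f13_1 := C.f13_1
  have u_f13_3 := C.f13_3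
  have u_f13_4 := C.f13_4
  have u_f13_6 := C.f13_6
  have u_f13_7 := C.f13_7
  have u_f22_0 := C.f22_0
  have u_f22_1 := C.f22_1
  have u_f22_3 := C.f22_3
  have u_f22_4 := C.f22_4
  have u_f22_6 := C.f22_6
  have u_f23_0 := C.f23_0
  have u_f23_1 := C.f23_1
  have u_f23_2 := C.f23_2
  have u_f23_4 := C.f23_4
  have u_f23_5 := C.f23_5
  have u_f23_6 := C.f23_6
  have u_f23_8 := C.f23_8
  have u_f23_9 := C.f23_9
  have u_f33_0 := C.f33_0
  have u_f33_1 := C.f33_1
  have u_f33_3 := C.f33_3
  have u_f33_4 := C.f33_4
  have u_f33_6 := C.f33_6
  have u_f33_7 := C.f33_7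
  have d3 : 0 ≤ (1) * A1 + (-1) * A2 + (1) * n2 + (-1) ∨ 0 ≤ (-1) * B2 + (1) * n2 + (1) * B1 + (-1) := by
    have := C.t12
    clear C
    omega
  have d4 : 0 ≤ (-1) * A1 + (1) * A2 + (-1) ∨ 0 ≤ (1) * B2 + (-1) * B1 + (-1) := by
    have := C.t23
    clear C
    omega
  have d5 : 0 ≤ (-1) * A1 + (1) * A2 + (-1) ∨ 0 ≤ (1) * B2 + (1) * n3 + (-1) * B3 + (-1) := by
    have := C.t23
    clear C
    omega
  have d11 : 0 ≤ (1) * m13_1 + (-1) * A1 + (1) ∨ 0 ≤ (1) * m13_1 + (-1) * B3 + (1) := by
    have := C.f13_2
    clear C
    omega
  have d15 : 0 ≤ (-1) * m13_1 + (-1) * n2 + (1) * m13_2 + (0) ∨ 0 ≤ (1) * m13_2 + (-1) * B3 + (1) := by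
    have := C.f13_5
    clear C
    omega
  have d19 : 0 ≤ (-1) * n3 + (-1) * m13_2 + (1) * m13_3 + (0) ∨ 0 ≤ (1) * m13_3 + (-1) * B3 + (1) := by
    have := C.f13_8
    clear C
    omega
  have d23 : 0 ≤ (1) * m22_1 + (-1) * n1 + (0) ∨ 0 ≤ (-1) * B2 + (1) * m22_1 + (1) := by
    have := C.f22_2
    clear C
    omega
  have d27 : 0 ≤ (-1) * m22_1 + (1) * m22_2 + (-1) * n2 + (0) ∨ 0 ≤ (-1) * B2 + (1) * m22_2 + (1) := by
    have := C.f22_5
    clear C
    omega
  have d35 : 0 ≤ (1) * m23_1 + (-1) * n1 + (0) ∨ 0 ≤ (1) * m23_1 + (-1) * A2 + (1) ∨ 0 ≤ (1) * m23_1 + (-1) * B3 + (1) := by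
    have := C.f23_3
    clear C
    omega
  have d43 : 0 ≤ (-1) * m23_1 + (-1) * n2 + (1) * m23_2 + (0) ∨ 0 ≤ (-1) * A2 + (1) * m23_2 + (1) ∨ 0 ≤ (1) * m23_2 + (-1) * B3 + (1) := by
    have := C.f23_7
    clear C
    omega
  have d47 : 0 ≤ (1) * m23_3 + (-1) * n3 + (-1) * m23_2 + (0) ∨ 0 ≤ (1) * m23_3 + (-1) * B3 + (1) := by
    have := C.f23_10
    clear C
    omega
  have d51 : 0 ≤ (-1) * n1 + (1) * m33_1 + (0) ∨ 0 ≤ (-1) * A3 + (1) * m33_1 + (1) := by
    have := C.f33_2
    clear C
    omega
  have d55 : 0 ≤ (1) * m33_2 + (-1) * n2 + (-1) * m33_1 + (0) ∨ 0 ≤ (-1) * A3 + (1) * m33_2 + (1) := by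
    have := C.f33_5
    clear C
    omega
  have d59 : 0 ≤ (-1) * m33_2 + (-1) * n3 + (1) * m33_3 + (0) ∨ 0 ≤ (-1) * A3 + (1) * m33_3 + (1) := by
    have := C.f33_8
    clear C
    omega
  have d61 : 0 ≤ (-1) * B1 + (0) ∨ 0 ≤ (-1) * A1 + (0) ∨ 0 ≤ (-1) * B3 + (0) ∨ 0 ≤ (-1) * m11_1 + (-1) * m13_1 + (2) * B1 + (-1) ∨ 0 ≤ (2) * B2 + (-1) * m11_2 + (-1) * m13_2 + (-1) ∨ 0 ≤ (-1) * m11_3 + (-1) * m13_3 + (2) * B3 + (-1) := by
    have := C.p11_13B
    clear C
    omega
  have d63 : 0 ≤ (-1) * B1 + (0) ∨ 0 ≤ (-1) * B2 + (0) ∨ 0 ≤ (-1) * m11_1 + (-1) * m22_1 + (2) * B1 + (-1) ∨ 0 ≤ (2) * B2 + (-1) * m22_2 + (-1) * m11_2 + (-1) ∨ 0 ≤ (-1) * m22_3 + (-1) * m11_3 + (2) * B3 + (-1) := by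
    have := C.p11_22B
    clear C
    omega
  have d65 : 0 ≤ (-1) * B1 + (0) ∨ 0 ≤ (-1) * A2 + (0) ∨ 0 ≤ (-1) * B3 + (0) ∨ 0 ≤ (-1) * m11_1 + (-1) * m23_1 + (2) * B1 + (-1) ∨ 0 ≤ (2) * B2 + (-1) * m11_2 + (-1) * m23_2 + (-1) ∨ 0 ≤ (-1) * m23_3 + (-1) * m11_3 + (2) * B3 + (-1) := by
    have := C.p11_23B
    clear C
    omega
  have d67 : 0 ≤ (-1) * B1 + (0) ∨ 0 ≤ (-1) * A3 + (0) ∨ 0 ≤ (-1) * m11_1 + (-1) * m33_1 + (2) * B1 + (-1) ∨ 0 ≤ (2) * B2 + (-1) * m33_2 + (-1) * m11_2 + (-1) ∨ 0 ≤ (-1) * m11_3 + (-1) * m33_3 + (2) * B3 + (-1) := by
    have := C.p11_33B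
    clear C
    omega
  have d76 : 0 ≤ (-1) * B2 + (0) ∨ 0 ≤ (-1) * A3 + (0) ∨ 0 ≤ (2) * A1 + (-1) * m22_1 + (-1) * m33_1 + (-1) ∨ 0 ≤ (-1) * m22_2 + (2) * A2 + (-1) * m33_2 + (-1) ∨ 0 ≤ (2) * A3 + (-1) * m22_3 + (-1) * m33_3 + (-1) := by
    have := C.p22_33A
    clear C
    omega
  have d81 : 0 ≤ (1) * A1 + (-1) * n1 + (0) ∨ 0 ≤ (1) * A1 + (-1) * A2 + (1) ∨ 0 ≤ (-1) * B1 + (0) ∨ 0 ≤ (1) * B2 + (-1) * n2 + (-1) * B1 + (1) := by
    have := C.tmpp
    clear C
    omega
  have d82 : 0 ≤ (-1) * A1 + (1) * A2 + (-1) * n2 + (0) ∨ 0 ≤ (-1) * A3 + (1) * A2 + (1) ∨ 0 ≤ (-1) * B2 + (1) * B1 + (0) ∨ 0 ≤ (-1) * B2 + (-1) * n3 + (1) * B3 + (1) := by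
    have := C.tzmp
    clear C
    omega
  have d83 : 0 ≤ (1) * A1 + (-1) * A2 + (0) ∨ 0 ≤ (1) * A3 + (-1) * n3 + (-1) * A2 + (1) ∨ 0 ≤ (1) * B2 + (-1) * n2 + (-1) * B1 + (0) ∨ 0 ≤ (1) * B2 + (-1) * B3 + (1) ∨ 0 ≤ (-1) * B2 + (1) * A2 + (-1) := by
    have := C.tzpm
    clear C
    omega
  have d84 : 0 ≤ (1) * A1 + (-1) * A2 + (0) ∨ 0 ≤ (1) * A3 + (-1) * n3 + (-1) * A2 + (1) ∨ 0 ≤ (1) * B2 + (-1) * n2 + (-1) * B1 + (0) ∨ 0 ≤ (1) * B2 + (-1) * B3 + (1) ∨ 0 ≤ (1) * A3 + (-1) * B3 + (1) := by
    have := C.tzpm
    clear C
    omega
  have d86 : 0 ≤ (-1) * A1 + (0) ∨ 0 ≤ (-1) * A1 + (1) * A2 + (-1) * n2 + (1) ∨ 0 ≤ (-1) * A3 + (1) * A2 + (0) ∨ 0 ≤ (-1) * n1 + (1) * B1 + (0) ∨ 0 ≤ (-1) * B2 + (1) * B1 + (1) ∨ 0 ≤ (-1) * B2 + (-1) * n3 + (1) * B3 + (0) := by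
    have := C.tpmz
    clear C
    omega
  rcases d11 with g0 | g0
  · rcases d5 with g1 | g1
    · rcases d15 with g2 | g2
      · rcases d23 with g3 | g3
        · rcases d63 with g4 | g4 | g4 | g4 | g4
          · linarith only [e0, g4]
          · linarith only [e1, g4]
          · linarith only [g3, g4, s1, u_f11_0, u_f33_0, u_o0]
          · rcases d35 with g5 | g5 | g5
            · rcases d43 with g6 | g6 | g6
              · linarith only [g5, g6, u_a1, u_a3, u_f23_5]
              · rcases d86 with g7 | g7 | g7 | g7 | g7 | g7
                · linarith only [e0, g7, u_o0]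
                · rcases d65 with g8 | g8 | g8 | g8 | g8 | g8
                  · linarith only [e0, g8]
                  · linarith only [e0, g8, u_a2, u_o0]
                  · linarith only [e0, g3, g7, g8, s1, s2, u_f11_0, u_f11_1, u_f22_1, u_f22_4, u_f33_0, u_f33_4, u_o0, u_o2]
                  · linarith only [g5, g8, u_a1, u_f11_0, u_o0]
                  · rcases d82 with g9 | g9 | g9 | g9
                    · rcases d3 with g10 | g10
                      · linarith only [g10, g9]
                      · linarith only [g10, g6, g8, g9, u_f11_0, u_f11_1, u_o0]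
                    · linarith only [g6, g7, g8, g9, s2, u_f11_0, u_f11_1, u_f22_4, u_f33_4, u_o0]
                    · linarith only [g3, g6, g7, g8, g9, s2, u_f11_0, u_f11_1, u_f22_1, u_f22_4, u_f33_0, u_f33_3, u_o0]
                    · linarith only [g6, g7, g8, g9, s3, u_f11_0, u_f11_1, u_f11_2, u_f22_4, u_f22_6, u_f33_7, u_o0]
                  · rcases d47 with g9 | g9
                    · linarith only [g6, g7, g8, g9, s3, u_b3, u_f22_4, u_f22_6, u_f33_7, u_o0]
                    · linarith only [g8, g9, s3, u_b3, u_f11_0, u_f11_1, u_f11_2, u_f22_4, u_f22_6, u_f33_7]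
                · linarith only [g4, g7, s2, u_f33_4]
                · linarith only [g7, u_a1, u_o0]
                · linarith only [g3, g7, s1, u_f11_0, u_f22_1, u_f33_0, u_o0]
                · linarith only [g4, g7, s3, u_f11_2, u_f22_6, u_f33_7]
              · linarith only [g4, g6, s2, u_f23_5, u_f33_4, u_o2]
            · rcases d43 with g6 | g6 | g6
              · linarith only [g3, g5, g6, u_a1, u_a3, u_f22_1, u_f23_5, u_o1]
              · rcases d83 with g7 | g7 | g7 | g7 | g7
                · linarith only [g1, g7]
                · linarith only [g4, g7, s3, u_f11_2, u_f22_6, u_f33_7, u_o1, u_o2]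
                · rcases d82 with g8 | g8 | g8 | g8
                  · linarith only [g3, g5, g8, u_b3, u_f22_1, u_f23_0, u_o0]
                  · linarith only [g7, g8, s2, u_f11_0, u_f11_1, u_f22_4, u_f33_4]
                  · linarith only [g3, g7, g8, s2, u_f11_0, u_f11_1, u_f22_1, u_f22_4, u_f33_0, u_f33_3, u_o1]
                  · linarith only [g7, g8, s3, u_f11_0, u_f11_1, u_f11_2, u_f22_4, u_f22_6, u_f33_7]
                · linarith only [g4, g7, s2, u_f33_4, u_o1, u_o2]
                · linarith only [g3, g5, g7, u_f22_1, u_f23_0]
              · linarith only [g4, g6, s2, u_f23_5, u_f33_4, u_o2]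
            · linarith only [g3, g4, g5, s2, u_f22_1, u_f23_0, u_f33_4, u_o1, u_o2]
          · linarith only [g4, s3, u_f33_7]
        · rcases d35 with g4 | g4 | g4
          · rcases d63 with g5 | g5 | g5 | g5 | g5
            · linarith only [e0, g5]
            · linarith only [e1, g5]
            · rcases d43 with g6 | g6 | g6
              · linarith only [g4, g5, g6, s1, u_a3, u_f23_5, u_f33_0]
              · rcases d81 with g7 | g7 | g7 | g7
                · linarith only [g5, g7, s1, u_f33_0]
                · linarith only [g4, g5, g7, s1, u_f23_1, u_f33_0]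
                · linarith only [e0, g7]
                · rcases d65 with g8 | g8 | g8 | g8 | g8 | g8
                  · linarith only [e0, g8]
                  · linarith only [e0, g4, g5, g8, s1, u_f23_1, u_f33_0, u_o0]
                  · linarith only [e0, g3, g4, g5, g7, g8, s1, s2, u_a3, u_f11_1, u_f22_4, u_f23_1, u_f33_0, u_f33_4, u_o0, u_o2]
                  · linarith only [g4, g5, g8, s1, u_f11_0, u_f33_0, u_o0]
                  · linarith only [g3, g4, g5, g6, g8, s1, u_a3, u_f11_0, u_f11_1, u_f23_1, u_f33_0, u_o0]
                  · rcases d47 with g9 | g9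
                    · linarith only [g3, g4, g5, g6, g8, g9, s1, s3, u_f11_0, u_f22_4, u_f22_6, u_f23_1, u_f33_0, u_f33_7, u_o0]
                    · linarith only [g3, g4, g5, g8, g9, s1, s3, u_a3, u_f11_0, u_f11_1, u_f11_2, u_f22_4, u_f22_6, u_f23_1, u_f33_0, u_f33_7]
              · linarith only [g6, u_a4, u_f23_5, u_o2]
            · rcases d43 with g6 | g6 | g6
              · linarith only [g4, g6, u_a1, u_a3, u_f23_5]
              · rcases d83 with g7 | g7 | g7 | g7 | g7
                · linarith only [g1, g7]
                · linarith only [g5, g7, s3, u_f11_2, u_f22_6, u_f33_7, u_o1, u_o2]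
                · rcases d82 with g8 | g8 | g8 | g8
                  · rcases d3 with g9 | g9
                    · linarith only [g8, g9]
                    · linarith only [g7, g9]
                  · linarith only [g7, g8, s2, u_f11_0, u_f11_1, u_f22_4, u_f33_4]
                  · linarith only [g4, g7, g8, u_a1, u_a3, u_f23_1]
                  · linarith only [g7, g8, s3, u_f11_0, u_f11_1, u_f11_2, u_f22_4, u_f22_6, u_f33_7]
                · linarith only [g5, g7, s2, u_f33_4, u_o1, u_o2]
                · rcases d65 with g8 | g8 | g8 | g8 | g8 | g8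
                  · linarith only [e0, g8]
                  · linarith only [e1, g7, g8]
                  · linarith only [e1, g5, g7, g8, s2, u_f33_4, u_o2]
                  · linarith only [g4, g8, u_a1, u_f11_0, u_o0]
                  · rcases d82 with g9 | g9 | g9 | g9
                    · rcases d3 with g10 | g10
                      · linarith only [g10, g9]
                      · linarith only [g10, g6, g8, g9, u_f11_0, u_f11_1, u_o0]
                    · linarith only [g6, g7, g8, g9, s2, u_f22_4, u_f33_4]
                    · linarith only [g4, g6, g8, g9, u_a1, u_a3, u_f11_0, u_f11_1, u_f23_1, u_o0]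
                    · linarith only [g6, g7, g8, g9, s3, u_f11_2, u_f22_4, u_f22_6, u_f33_7]
                  · rcases d47 with g9 | g9
                    · linarith only [g6, g7, g8, g9, s3, u_f22_4, u_f22_6, u_f33_7]
                    · linarith only [g8, g9, s3, u_b3, u_f11_0, u_f11_1, u_f11_2, u_f22_4, u_f22_6, u_f33_7]
              · linarith only [g5, g6, s2, u_f23_5, u_f33_4, u_o2]
            · linarith only [g5, s3, u_f33_7]
          · rcases d63 with g5 | g5 | g5 | g5 | g5
            · linarith only [e0, g5]
            · linarith only [e1, g5]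
            · rcases d43 with g6 | g6 | g6
              · linarith only [g1, g4, g6, u_a3, u_f23_5]
              · rcases d67 with g7 | g7 | g7 | g7 | g7
                · linarith only [e0, g7]
                · linarith only [e2, g7]
                · linarith only [g5, g7, s1, u_f11_0, u_o0]
                · linarith only [g1, g3, g5, g7, s2, u_f11_0, u_f22_4, u_o0]
                · rcases d84 with g8 | g8 | g8 | g8 | g8
                  · linarith only [g1, g8]
                  · linarith only [g1, g3, g5, g7, g8, s3, u_f11_0, u_f22_4, u_f22_6, u_o0]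
                  · rcases d3 with g9 | g9
                    · linarith only [g1, g3, g5, g8, g9, u_f11_0]
                    · linarith only [g8, g9]
                  · linarith only [g3, g5, g8, s1, u_f11_0, u_f33_1, u_o0, u_o2]
                  · rcases d65 with g9 | g9 | g9 | g9 | g9 | g9
                    · linarith only [e0, g9]
                    · linarith only [e0, g1, g9, u_o0]
                    · linarith only [e1, g9, u_b4]
                    · linarith only [g1, g4, g9, u_f11_0, u_o0]
                    · rcases d3 with g10 | g10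
                      · linarith only [g1, g10, g3, g5, g6, g9, u_f11_0, u_f11_1, u_o0]
                      · linarith only [g1, g10, g3, g5, g6, g9, u_f11_0, u_f11_1, u_o0]
                    · rcases d47 with g10 | g10
                      · linarith only [g1, g10, g3, g5, g6, g9, s3, u_f11_0, u_f22_4, u_f22_6, u_f33_7, u_o0]
                      · linarith only [g1, g10, g3, g5, g9, s3, u_a3, u_f11_0, u_f11_1, u_f11_2, u_f22_4, u_f22_6, u_f33_7]
              · linarith only [g6, u_a4, u_f23_5, u_o2]
            · rcases d43 with g6 | g6 | g6
              · linarith only [g1, g4, g6, u_a3, u_f23_5]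
              · rcases d83 with g7 | g7 | g7 | g7 | g7
                · linarith only [g1, g7]
                · linarith only [g5, g7, s3, u_f11_2, u_f22_6, u_f33_7, u_o1, u_o2]
                · rcases d82 with g8 | g8 | g8 | g8
                  · rcases d3 with g9 | g9
                    · linarith only [g8, g9]
                    · linarith only [g7, g9]
                  · linarith only [g7, g8, s2, u_f11_0, u_f11_1, u_f22_4, u_f33_4]
                  · linarith only [g1, g7, g8, u_a3]
                  · linarith only [g7, g8, s3, u_f11_0, u_f11_1, u_f11_2, u_f22_4, u_f22_6, u_f33_7]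
                · linarith only [g5, g7, s2, u_f33_4, u_o1, u_o2]
                · rcases d65 with g8 | g8 | g8 | g8 | g8 | g8
                  · linarith only [e0, g8]
                  · linarith only [e1, g7, g8]
                  · linarith only [e1, g5, g7, g8, s2, u_f33_4, u_o2]
                  · linarith only [g1, g4, g8, u_f11_0, u_o0]
                  · rcases d82 with g9 | g9 | g9 | g9
                    · rcases d3 with g10 | g10
                      · linarith only [g10, g9]
                      · linarith only [g10, g6, g8, g9, u_f11_0, u_f11_1, u_o0]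
                    · linarith only [g6, g7, g8, g9, s2, u_f22_4, u_f33_4]
                    · linarith only [g1, g6, g8, g9, u_a3, u_f11_0, u_f11_1, u_o0]
                    · linarith only [g6, g7, g8, g9, s3, u_f11_2, u_f22_4, u_f22_6, u_f33_7]
                  · rcases d47 with g9 | g9
                    · linarith only [g6, g7, g8, g9, s3, u_f22_4, u_f22_6, u_f33_7]
                    · linarith only [g8, g9, s3, u_b3, u_f11_0, u_f11_1, u_f11_2, u_f22_4, u_f22_6, u_f33_7]
              · linarith only [g5, g6, s2, u_f23_5, u_f33_4, u_o2]
            · linarith only [g5, s3, u_f33_7]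
          · linarith only [g4, u_a4, u_f23_1, u_o2]
      · rcases d23 with g3 | g3
        · rcases d63 with g4 | g4 | g4 | g4 | g4
          · linarith only [e0, g4]
          · linarith only [e1, g4]
          · linarith only [g3, g4, s1, u_f11_0, u_f33_0, u_o0]
          · rcases d35 with g5 | g5 | g5
            · rcases d43 with g6 | g6 | g6
              · linarith only [g5, g6, u_a1, u_a3, u_f23_5]
              · rcases d86 with g7 | g7 | g7 | g7 | g7 | g7
                · linarith only [e0, g7, u_o0]
                · linarith only [g2, g4, g7, s2, u_f13_0, u_f13_3, u_f33_4, u_o2]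
                · linarith only [g4, g7, s2, u_f33_4]
                · linarith only [g7, u_a1, u_o0]
                · linarith only [g3, g7, u_a1, u_f22_1, u_o0]
                · linarith only [g4, g7, s3, u_f11_2, u_f22_6, u_f33_7]
              · linarith only [g4, g6, s2, u_f23_5, u_f33_4, u_o2]
            · rcases d43 with g6 | g6 | g6
              · linarith only [g3, g5, g6, u_a1, u_a3, u_f22_1, u_f23_5, u_o1]
              · rcases d83 with g7 | g7 | g7 | g7 | g7
                · linarith only [g1, g7]
                · linarith only [g4, g7, s3, u_f11_2, u_f22_6, u_f33_7, u_o1, u_o2]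
                · rcases d82 with g8 | g8 | g8 | g8
                  · linarith only [g2, g7, g8, s2, u_f11_0, u_f11_1, u_f13_0, u_f13_3, u_f22_4, u_f33_4, u_o2]
                  · linarith only [g7, g8, s2, u_f11_0, u_f11_1, u_f22_4, u_f33_4]
                  · linarith only [g3, g7, g8, s1, u_a3, u_f11_0, u_f22_1, u_f33_0, u_o1]
                  · linarith only [g7, g8, s3, u_f11_0, u_f11_1, u_f11_2, u_f22_4, u_f22_6, u_f33_7]
                · linarith only [g4, g7, s2, u_f33_4, u_o1, u_o2]
                · linarith only [g3, g5, g7, u_f22_1, u_f23_0]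
              · linarith only [g4, g6, s2, u_f23_5, u_f33_4, u_o2]
            · linarith only [g3, g4, g5, s2, u_f22_1, u_f23_0, u_f33_4, u_o1, u_o2]
          · linarith only [g4, s3, u_f33_7]
        · rcases d35 with g4 | g4 | g4
          · rcases d63 with g5 | g5 | g5 | g5 | g5
            · linarith only [e0, g5]
            · linarith only [e1, g5]
            · rcases d43 with g6 | g6 | g6
              · linarith only [g4, g5, g6, s1, u_a3, u_f23_5, u_f33_0]
              · rcases d81 with g7 | g7 | g7 | g7
                · linarith only [g5, g7, s1, u_f33_0]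
                · linarith only [g4, g5, g7, s1, u_f23_1, u_f33_0]
                · linarith only [e0, g7]
                · linarith only [g2, g3, g4, g5, g7, s1, s2, u_f11_1, u_f13_0, u_f13_3, u_f22_4, u_f23_1, u_f33_0, u_f33_4, u_o2]
              · linarith only [g6, u_a4, u_f23_5, u_o2]
            · rcases d43 with g6 | g6 | g6
              · linarith only [g4, g6, u_a1, u_a3, u_f23_5]
              · rcases d86 with g7 | g7 | g7 | g7 | g7 | g7
                · linarith only [e0, g7, u_o0]
                · linarith only [g2, g5, g7, s2, u_f13_0, u_f13_3, u_f33_4, u_o2]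
                · linarith only [g5, g7, s2, u_f33_4]
                · linarith only [g7, u_a1, u_o0]
                · rcases d27 with g8 | g8
                  · linarith only [g4, g5, g7, g8, s1, u_a1, u_a3, u_f11_1, u_f23_1, u_f33_0]
                  · linarith only [g2, g4, g5, g7, g8, s2, u_a1, u_f11_0, u_f11_1, u_f13_0, u_f13_3, u_f23_1, u_f33_4, u_o2]
                · linarith only [g5, g7, s3, u_f11_2, u_f22_6, u_f33_7]
              · linarith only [g5, g6, s2, u_f23_5, u_f33_4, u_o2]
            · linarith only [g5, s3, u_f33_7]
          · rcases d63 with g5 | g5 | g5 | g5 | g5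
            · linarith only [e0, g5]
            · linarith only [e1, g5]
            · rcases d43 with g6 | g6 | g6
              · linarith only [g1, g4, g6, u_a3, u_f23_5]
              · rcases d67 with g7 | g7 | g7 | g7 | g7
                · linarith only [e0, g7]
                · linarith only [e2, g7]
                · linarith only [g5, g7, s1, u_f11_0, u_o0]
                · linarith only [g1, g3, g5, g7, s2, u_f11_0, u_f22_4, u_o0]
                · rcases d84 with g8 | g8 | g8 | g8 | g8
                  · linarith only [g1, g8]
                  · linarith only [g1, g3, g5, g7, g8, s3, u_f11_0, u_f22_4, u_f22_6, u_o0]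
                  · linarith only [g1, g2, g3, g5, g8, s2, u_f11_1, u_f13_0, u_f13_3, u_f22_4, u_f33_4, u_o2]
                  · linarith only [g3, g5, g8, s1, u_f11_0, u_f33_1, u_o0, u_o2]
                  · rcases d59 with g9 | g9
                    · linarith only [g1, g3, g5, g7, g8, g9, s2, s3, u_f11_0, u_f11_2, u_f22_4, u_f22_6, u_o0]
                    · linarith only [g1, g2, g3, g5, g7, g8, g9, s2, s3, u_f11_0, u_f11_1, u_f11_2, u_f13_0, u_f13_3, u_f22_4, u_f22_6, u_f33_4]
              · linarith only [g6, u_a4, u_f23_5, u_o2]
            · rcases d43 with g6 | g6 | g6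
              · linarith only [g1, g4, g6, u_a3, u_f23_5]
              · rcases d83 with g7 | g7 | g7 | g7 | g7
                · linarith only [g1, g7]
                · linarith only [g5, g7, s3, u_f11_2, u_f22_6, u_f33_7, u_o1, u_o2]
                · rcases d82 with g8 | g8 | g8 | g8
                  · linarith only [g2, g7, g8, s2, u_f11_0, u_f11_1, u_f13_0, u_f13_3, u_f22_4, u_f33_4, u_o2]
                  · linarith only [g7, g8, s2, u_f11_0, u_f11_1, u_f22_4, u_f33_4]
                  · linarith only [g1, g7, g8, u_a3]
                  · linarith only [g7, g8, s3, u_f11_0, u_f11_1, u_f11_2, u_f22_4, u_f22_6, u_f33_7]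
                · linarith only [g5, g7, s2, u_f33_4, u_o1, u_o2]
                · rcases d86 with g8 | g8 | g8 | g8 | g8 | g8
                  · linarith only [e0, g8, u_o0]
                  · linarith only [g2, g5, g8, s2, u_f13_0, u_f13_3, u_f33_4, u_o2]
                  · linarith only [g5, g8, s2, u_f33_4]
                  · linarith only [g8, u_a1, u_o0]
                  · rcases d27 with g9 | g9
                    · linarith only [g1, g2, g3, g5, g8, g9, s2, u_f11_0, u_f11_1, u_f13_0, u_f13_3, u_f33_4, u_o2]
                    · linarith only [g1, g2, g5, g8, g9, s2, u_f11_0, u_f11_1, u_f13_0, u_f13_3, u_f33_4, u_o2]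
                  · linarith only [g5, g8, s3, u_f11_2, u_f22_6, u_f33_7]
              · linarith only [g5, g6, s2, u_f23_5, u_f33_4, u_o2]
            · linarith only [g5, s3, u_f33_7]
          · linarith only [g4, u_a4, u_f23_1, u_o2]
    · rcases d15 with g2 | g2
      · rcases d23 with g3 | g3
        · rcases d63 with g4 | g4 | g4 | g4 | g4
          · linarith only [e0, g4]
          · linarith only [e0, g3, g4, s1, u_f11_0, u_f22_1, u_f33_0, u_o0]
          · linarith only [g3, g4, s1, u_f11_0, u_f33_0, u_o0]
          · rcases d35 with g5 | g5 | g5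
            · rcases d43 with g6 | g6 | g6
              · linarith only [g5, g6, u_a1, u_a3, u_f23_5]
              · rcases d86 with g7 | g7 | g7 | g7 | g7 | g7
                · linarith only [e0, g7, u_o0]
                · rcases d65 with g8 | g8 | g8 | g8 | g8 | g8
                  · linarith only [e0, g8]
                  · linarith only [e0, g8, u_a2, u_o0]
                  · linarith only [e0, g3, g7, g8, s1, s2, u_f11_0, u_f11_1, u_f22_1, u_f22_4, u_f33_0, u_f33_4, u_o0, u_o2]
                  · linarith only [g5, g8, u_a1, u_f11_0, u_o0]
                  · rcases d82 with g9 | g9 | g9 | g9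
                    · rcases d3 with g10 | g10
                      · linarith only [g10, g9]
                      · linarith only [g10, g6, g8, g9, u_f11_0, u_f11_1, u_o0]
                    · linarith only [g6, g7, g8, g9, s2, u_f11_0, u_f11_1, u_f22_4, u_f33_4, u_o0]
                    · linarith only [g3, g6, g7, g8, g9, s2, u_f11_0, u_f11_1, u_f22_1, u_f22_4, u_f33_0, u_f33_3, u_o0]
                    · linarith only [g6, g7, g8, g9, s3, u_f11_0, u_f11_1, u_f11_2, u_f22_4, u_f22_6, u_f33_7, u_o0]
                  · rcases d47 with g9 | g9
                    · linarith only [g6, g7, g8, g9, s3, u_b3, u_f22_4, u_f22_6, u_f33_7, u_o0]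
                    · linarith only [g8, g9, s3, u_b3, u_f11_0, u_f11_1, u_f11_2, u_f22_4, u_f22_6, u_f33_7]
                · linarith only [g4, g7, s2, u_f33_4]
                · linarith only [g7, u_a1, u_o0]
                · linarith only [g3, g7, s1, u_f11_0, u_f22_1, u_f33_0, u_o0]
                · linarith only [g1, g7]
              · linarith only [g4, g6, s2, u_f23_5, u_f33_4, u_o2]
            · rcases d43 with g6 | g6 | g6
              · linarith only [g3, g5, g6, u_a1, u_a3, u_f22_1, u_f23_5, u_o1]
              · rcases d83 with g7 | g7 | g7 | g7 | g7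
                · linarith only [g3, g7, u_a1, u_f22_1, u_o1]
                · linarith only [g1, g7, u_o1, u_o2]
                · rcases d82 with g8 | g8 | g8 | g8
                  · linarith only [g3, g5, g8, u_b3, u_f22_1, u_f23_0, u_o0]
                  · linarith only [g7, g8, s2, u_f11_0, u_f11_1, u_f22_4, u_f33_4]
                  · linarith only [g3, g7, g8, s2, u_f11_0, u_f11_1, u_f22_1, u_f22_4, u_f33_0, u_f33_3, u_o1]
                  · linarith only [g7, g8, s3, u_f11_0, u_f11_1, u_f11_2, u_f22_4, u_f22_6, u_f33_7]
                · linarith only [g4, g7, s2, u_f33_4, u_o1, u_o2]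
                · linarith only [g3, g5, g7, u_f22_1, u_f23_0]
              · linarith only [g4, g6, s2, u_f23_5, u_f33_4, u_o2]
            · linarith only [g3, g4, g5, s2, u_f22_1, u_f23_0, u_f33_4, u_o1, u_o2]
          · linarith only [g4, s3, u_f33_7]
        · rcases d4 with g4 | g4
          · rcases d35 with g5 | g5 | g5
            · rcases d43 with g6 | g6 | g6
              · linarith only [g5, g6, u_a1, u_a3, u_f23_5]
              · rcases d63 with g7 | g7 | g7 | g7 | g7
                · linarith only [e0, g7]
                · linarith only [e1, g7]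
                · rcases d81 with g8 | g8 | g8 | g8
                  · linarith only [g7, g8, s1, u_f33_0]
                  · linarith only [g5, g7, g8, s1, u_f23_1, u_f33_0]
                  · linarith only [e0, g8]
                  · rcases d65 with g9 | g9 | g9 | g9 | g9 | g9
                    · linarith only [e0, g9]
                    · linarith only [e0, g5, g7, g9, s1, u_f23_1, u_f33_0, u_o0]
                    · linarith only [e0, g5, g7, g8, g9, s1, s2, u_f11_0, u_f11_1, u_f22_4, u_f23_1, u_f33_0, u_f33_4, u_o0, u_o2]
                    · linarith only [g5, g7, g9, s1, u_f11_0, u_f33_0, u_o0]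
                    · linarith only [g3, g5, g6, g7, g9, s1, u_a3, u_f11_0, u_f11_1, u_f23_1, u_f33_0, u_o0]
                    · rcases d47 with g10 | g10
                      · linarith only [g10, g6, g9, s3, u_f22_4, u_f22_6, u_f33_7, u_o1]
                      · linarith only [g10, g3, g5, g7, g9, s1, s3, u_a3, u_f11_0, u_f11_1, u_f11_2, u_f22_4, u_f22_6, u_f23_1, u_f33_0, u_f33_7]
                · rcases d83 with g8 | g8 | g8 | g8 | g8
                  · linarith only [g4, g8]
                  · linarith only [g1, g8, u_o1, u_o2]
                  · rcases d82 with g9 | g9 | g9 | g9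
                    · rcases d3 with g10 | g10
                      · linarith only [g10, g9]
                      · linarith only [g10, g8]
                    · linarith only [g8, g9, s2, u_f11_0, u_f11_1, u_f22_4, u_f33_4]
                    · linarith only [g4, g8, g9, u_a3]
                    · linarith only [g8, g9, s3, u_f11_0, u_f11_1, u_f11_2, u_f22_4, u_f22_6, u_f33_7]
                  · linarith only [g7, g8, s2, u_f33_4, u_o1, u_o2]
                  · rcases d65 with g9 | g9 | g9 | g9 | g9 | g9
                    · linarith only [e0, g9]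
                    · linarith only [e1, g8, g9]
                    · linarith only [e1, g7, g8, g9, s2, u_f33_4, u_o2]
                    · linarith only [g5, g9, u_a1, u_f11_0, u_o0]
                    · rcases d82 with g10 | g10 | g10 | g10
                      · rcases d3 with g11 | g11
                        · linarith only [g10, g11]
                        · linarith only [g10, g11, g6, g9, u_f11_0, u_f11_1, u_o0]
                      · linarith only [g10, g6, g8, g9, s2, u_f22_4, u_f33_4]
                      · linarith only [g10, g4, g6, g9, u_a3, u_f11_0, u_f11_1, u_o0]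
                      · linarith only [g10, g6, g8, g9, s3, u_f11_2, u_f22_4, u_f22_6, u_f33_7]
                    · rcases d47 with g10 | g10
                      · linarith only [g10, g6, g8, g9, s3, u_f22_4, u_f22_6, u_f33_7]
                      · linarith only [g10, g9, s3, u_b3, u_f11_0, u_f11_1, u_f11_2, u_f22_4, u_f22_6, u_f33_7]
                · linarith only [g7, s3, u_f33_7]
              · linarith only [g6, u_a4, u_f23_5, u_o2]
            · rcases d43 with g6 | g6 | g6
              · linarith only [g4, g5, g6, u_a3, u_f23_5]
              · rcases d83 with g7 | g7 | g7 | g7 | g7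
                · linarith only [g4, g7]
                · linarith only [g1, g7, u_o1, u_o2]
                · rcases d82 with g8 | g8 | g8 | g8
                  · rcases d3 with g9 | g9
                    · linarith only [g8, g9]
                    · linarith only [g7, g9]
                  · linarith only [g7, g8, s2, u_f11_0, u_f11_1, u_f22_4, u_f33_4]
                  · linarith only [g4, g7, g8, u_a3]
                  · linarith only [g7, g8, s3, u_f11_0, u_f11_1, u_f11_2, u_f22_4, u_f22_6, u_f33_7]
                · linarith only [g0, g2, g7, s2, u_f11_0, u_f11_1, u_f13_4, u_f22_4, u_f33_4, u_o0, u_o1, u_o2]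
                · rcases d65 with g8 | g8 | g8 | g8 | g8 | g8
                  · linarith only [e0, g8]
                  · linarith only [e0, g4, g8, u_o0]
                  · linarith only [e2, g8, u_o2]
                  · linarith only [g4, g5, g8, u_f11_0, u_o0]
                  · rcases d3 with g9 | g9
                    · rcases d82 with g10 | g10 | g10 | g10
                      · linarith only [g10, g9]
                      · linarith only [g10, g6, g7, g8, s2, u_f22_4, u_f33_4]
                      · linarith only [g10, g4, g6, g8, g9, u_f11_0, u_f11_1, u_o0]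
                      · linarith only [g10, g6, g7, g8, s3, u_f11_2, u_f22_4, u_f22_6, u_f33_7]
                    · linarith only [g6, g7, g8, g9, u_f11_0, u_f11_1]
                  · rcases d47 with g9 | g9
                    · linarith only [g6, g7, g8, g9, s3, u_f22_4, u_f22_6, u_f33_7]
                    · linarith only [g8, g9, s3, u_b3, u_f11_0, u_f11_1, u_f11_2, u_f22_4, u_f22_6, u_f33_7]
              · linarith only [g6, u_a4, u_f23_5, u_o2]
            · linarith only [g5, u_a4, u_f23_1, u_o2]
          · rcases d35 with g5 | g5 | g5
            · rcases d43 with g6 | g6 | g6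
              · linarith only [g5, g6, u_a1, u_a3, u_f23_5]
              · rcases d67 with g7 | g7 | g7 | g7 | g7
                · linarith only [e0, g7]
                · linarith only [e2, g7]
                · rcases d51 with g8 | g8
                  · linarith only [g7, g8, s1, u_f11_0, u_f22_0, u_o0]
                  · linarith only [g5, g7, g8, s1, u_a4, u_f11_0, u_f22_0, u_f23_1, u_o0]
                · linarith only [g7, s2, u_f22_4, u_o1]
                · rcases d84 with g8 | g8 | g8 | g8 | g8
                  · linarith only [g5, g8, u_a1, u_f23_1]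
                  · linarith only [g7, g8, s3, u_f22_4, u_f22_6, u_o1]
                  · rcases d3 with g9 | g9
                    · rcases d82 with g10 | g10 | g10 | g10
                      · linarith only [g10, g9]
                      · linarith only [g10, g8, s2, u_f11_0, u_f11_1, u_f22_4, u_f33_4]
                      · linarith only [g10, g5, g8, s2, u_f11_0, u_f11_1, u_f22_4, u_f23_1, u_f33_0, u_f33_3]
                      · linarith only [g10, g8, s3, u_f11_0, u_f11_1, u_f11_2, u_f22_4, u_f22_6, u_f33_7]
                    · linarith only [g8, g9]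
                  · linarith only [g0, g2, g8, s2, u_f11_0, u_f11_1, u_f13_4, u_f22_4, u_f33_4, u_o0, u_o1, u_o2]
                  · rcases d65 with g9 | g9 | g9 | g9 | g9 | g9
                    · linarith only [e0, g9]
                    · linarith only [e0, g5, g9, u_a1, u_f23_1, u_o0]
                    · linarith only [e0, g4, g9, u_b4]
                    · linarith only [g5, g9, u_a1, u_f11_0, u_o0]
                    · rcases d3 with g10 | g10
                      · rcases d82 with g11 | g11 | g11 | g11
                        · linarith only [g10, g11]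
                        · linarith only [g11, g6, g9, s2, u_f22_4, u_f33_4, u_o1]
                        · linarith only [g11, g5, g6, g9, s1, s2, u_f11_0, u_f11_1, u_f22_1, u_f22_4, u_f23_1, u_f33_0, u_f33_3, u_o0]
                        · rcases d76 with g12 | g12 | g12 | g12 | g12
                          · linarith only [e0, g11, g12, g5, g6, g9, s1, s3, u_f11_0, u_f11_2, u_f22_1, u_f22_4, u_f22_6, u_f23_1, u_f33_0, u_f33_7, u_o0]
                          · linarith only [e2, g12]
                          · rcases d51 with g13 | g13
                            · linarith only [g11, g12, g13, g3, g5, g6, g9, s3, u_a1, u_f11_2, u_f22_4, u_f22_6, u_f23_1, u_f33_7]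
                            · linarith only [g12, g13, g3, g5, g6, g9, s2, u_a1, u_f22_4, u_f23_1, u_f33_4]
                          · linarith only [g12, g6, g9, s2]
                          · linarith only [g11, g12, g6, g9, s3, u_f11_2, u_o1, u_o2]
                      · rcases d83 with g11 | g11 | g11 | g11 | g11
                        · linarith only [g11, g5, u_a1, u_f23_1]
                        · linarith only [g11, g7, s3, u_f22_4, u_f22_6, u_o1]
                        · linarith only [g10, g11]
                        · linarith only [g11, g6, g9, s2, u_f22_4, u_f33_4, u_o1, u_o2]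
                        · linarith only [g10, g11, g6, g9, u_f11_0, u_f11_1]
                    · rcases d47 with g10 | g10
                      · linarith only [g10, g6, g9, s3, u_f22_4, u_f22_6, u_f33_7, u_o1]
                      · linarith only [g10, g9, s3, u_b3, u_f11_0, u_f11_1, u_f11_2, u_f22_4, u_f22_6, u_f33_7]
              · linarith only [g6, u_a4, u_f23_5, u_o2]
            · rcases d43 with g6 | g6 | g6
              · linarith only [g4, g5, g6, u_b3, u_f23_5]
              · rcases d76 with g7 | g7 | g7 | g7 | g7
                · linarith only [e0, g4, g7]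
                · linarith only [e2, g7]
                · rcases d61 with g8 | g8 | g8 | g8 | g8 | g8
                  · linarith only [e0, g8]
                  · linarith only [e0, g7, g8, s1, u_f11_0]
                  · linarith only [e2, g8, u_o2]
                  · linarith only [g0, g7, g8, s1]
                  · linarith only [g0, g2, g7, g8, s1, u_b3, u_f11_1]
                  · rcases d19 with g9 | g9
                    · linarith only [g0, g2, g7, g8, g9, s1, s3, u_b3, u_f11_0, u_f22_4, u_f22_6, u_f33_7]
                    · linarith only [g8, g9, s3, u_b3, u_f11_0, u_f11_1, u_f11_2, u_f22_4, u_f22_6, u_f33_7]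
                · rcases d65 with g8 | g8 | g8 | g8 | g8 | g8
                  · linarith only [e0, g8]
                  · linarith only [e0, g8, u_a2, u_o0]
                  · linarith only [e2, g8, u_o2]
                  · rcases d27 with g9 | g9
                    · linarith only [g3, g4, g5, g7, g8, g9, s2, u_f11_1, u_f22_4]
                    · rcases d55 with g10 | g10
                      · linarith only [g10, g4, g5, g7, g8, g9, s1, s2, u_f11_0, u_f11_1, u_f22_1, u_o0]
                      · linarith only [g10, g5, g7, g8, g9, s1, u_f11_0, u_f22_1, u_f33_1, u_o0]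
                  · linarith only [g6, g7, g8, s2]
                  · rcases d47 with g9 | g9
                    · linarith only [g6, g8, g9, s3, u_f22_4, u_f22_6, u_f33_7, u_o1]
                    · linarith only [g8, g9, s3, u_b3, u_f11_0, u_f11_1, u_f11_2, u_f22_4, u_f22_6, u_f33_7]
                · rcases d27 with g8 | g8
                  · linarith only [g3, g4, g8, u_b3, u_f22_4]
                  · rcases d59 with g9 | g9
                    · rcases d55 with g10 | g10
                      · rcases d51 with g11 | g11
                        · linarith only [g1, g10, g11, g7, g8, g9, s1, s2, u_f11_0, u_f11_1, u_f22_0, u_f22_6, u_o0, u_o1, u_o2]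
                        · linarith only [g0, g1, g10, g11, g2, g7, g8, g9, s1, s2, u_f11_0, u_f11_1, u_f13_4, u_f22_1, u_f22_6, u_o0, u_o1, u_o2]
                      · linarith only [g0, g1, g10, g2, g7, g8, g9, s3, u_f11_0, u_f11_1, u_f11_2, u_f13_4, u_f22_6, u_o0, u_o2]
                    · linarith only [g1, g7, g8, g9, u_f22_6, u_o2]
              · linarith only [g6, u_a4, u_f23_5, u_o2]
            · linarith only [g5, u_a4, u_f23_1, u_o2]
      · rcases d23 with g3 | g3
        · rcases d63 with g4 | g4 | g4 | g4 | g4
          · linarith only [e0, g4]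
          · linarith only [e0, g3, g4, s1, u_f11_0, u_f22_1, u_f33_0, u_o0]
          · linarith only [g3, g4, s1, u_f11_0, u_f33_0, u_o0]
          · rcases d35 with g5 | g5 | g5
            · rcases d43 with g6 | g6 | g6
              · linarith only [g5, g6, u_a1, u_a3, u_f23_5]
              · rcases d86 with g7 | g7 | g7 | g7 | g7 | g7
                · linarith only [e0, g7, u_o0]
                · linarith only [g2, g4, g7, s2, u_f13_0, u_f13_3, u_f33_4, u_o2]
                · linarith only [g4, g7, s2, u_f33_4]
                · linarith only [g7, u_a1, u_o0]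
                · linarith only [g3, g7, u_a1, u_f22_1, u_o0]
                · linarith only [g1, g7]
              · linarith only [g4, g6, s2, u_f23_5, u_f33_4, u_o2]
            · rcases d43 with g6 | g6 | g6
              · linarith only [g3, g5, g6, u_a1, u_a3, u_f22_1, u_f23_5, u_o1]
              · rcases d83 with g7 | g7 | g7 | g7 | g7
                · linarith only [g3, g7, u_a1, u_f22_1, u_o1]
                · linarith only [g1, g7, u_o1, u_o2]
                · rcases d82 with g8 | g8 | g8 | g8
                  · linarith only [g2, g7, g8, s2, u_f11_0, u_f11_1, u_f13_0, u_f13_3, u_f22_4, u_f33_4, u_o2]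
                  · linarith only [g7, g8, s2, u_f11_0, u_f11_1, u_f22_4, u_f33_4]
                  · linarith only [g3, g7, g8, s1, u_a3, u_f11_0, u_f22_1, u_f33_0, u_o1]
                  · linarith only [g7, g8, s3, u_f11_0, u_f11_1, u_f11_2, u_f22_4, u_f22_6, u_f33_7]
                · linarith only [g4, g7, s2, u_f33_4, u_o1, u_o2]
                · linarith only [g3, g5, g7, u_f22_1, u_f23_0]
              · linarith only [g4, g6, s2, u_f23_5, u_f33_4, u_o2]
            · linarith only [g3, g4, g5, s2, u_f22_1, u_f23_0, u_f33_4, u_o1, u_o2]
          · linarith only [g4, s3, u_f33_7]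
        · rcases d4 with g4 | g4
          · rcases d35 with g5 | g5 | g5
            · rcases d43 with g6 | g6 | g6
              · linarith only [g5, g6, u_a1, u_a3, u_f23_5]
              · rcases d63 with g7 | g7 | g7 | g7 | g7
                · linarith only [e0, g7]
                · linarith only [e1, g7]
                · rcases d81 with g8 | g8 | g8 | g8
                  · linarith only [g7, g8, s1, u_f33_0]
                  · linarith only [g5, g7, g8, s1, u_f23_1, u_f33_0]
                  · linarith only [e0, g8]
                  · linarith only [g2, g3, g5, g7, g8, s1, s2, u_f11_1, u_f13_0, u_f13_3, u_f22_4, u_f23_1, u_f33_0, u_f33_4, u_o2]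
                · rcases d86 with g8 | g8 | g8 | g8 | g8 | g8
                  · linarith only [e0, g8, u_o0]
                  · linarith only [g2, g7, g8, s2, u_f13_0, u_f13_3, u_f33_4, u_o2]
                  · linarith only [g7, g8, s2, u_f33_4]
                  · linarith only [g8, u_a1, u_o0]
                  · rcases d27 with g9 | g9
                    · linarith only [g5, g7, g8, g9, s1, u_a3, u_f11_0, u_f11_1, u_f22_1, u_f23_1, u_f33_0]
                    · linarith only [g2, g5, g7, g8, g9, s1, s2, u_f11_1, u_f13_0, u_f13_3, u_f22_1, u_f23_1, u_f33_0, u_f33_4, u_o2]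
                  · linarith only [g1, g8]
                · linarith only [g7, s3, u_f33_7]
              · linarith only [g6, u_a4, u_f23_5, u_o2]
            · rcases d43 with g6 | g6 | g6
              · linarith only [g4, g5, g6, u_a3, u_f23_5]
              · rcases d63 with g7 | g7 | g7 | g7 | g7
                · linarith only [e0, g7]
                · linarith only [e1, g7]
                · rcases d67 with g8 | g8 | g8 | g8 | g8
                  · linarith only [e0, g8]
                  · linarith only [e2, g8]
                  · linarith only [g7, g8, s1, u_f11_0, u_o0]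
                  · linarith only [g8, s2, u_f22_4, u_o1]
                  · rcases d59 with g9 | g9
                    · linarith only [g1, g3, g4, g7, g8, g9, s2, u_f11_0, u_f11_2, u_f22_4, u_o0]
                    · linarith only [g1, g2, g3, g7, g8, g9, s1, u_f11_0, u_f11_1, u_f11_2, u_f13_0, u_f13_3, u_f33_1]
                · rcases d83 with g8 | g8 | g8 | g8 | g8
                  · linarith only [g4, g8]
                  · linarith only [g1, g8, u_o1, u_o2]
                  · rcases d82 with g9 | g9 | g9 | g9
                    · linarith only [g2, g8, g9, s2, u_f11_0, u_f11_1, u_f13_0, u_f13_3, u_f22_4, u_f33_4, u_o2]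
                    · linarith only [g8, g9, s2, u_f11_0, u_f11_1, u_f22_4, u_f33_4]
                    · linarith only [g4, g8, g9, u_a3]
                    · linarith only [g8, g9, s3, u_f11_0, u_f11_1, u_f11_2, u_f22_4, u_f22_6, u_f33_7]
                  · linarith only [g7, g8, s2, u_f33_4, u_o1, u_o2]
                  · rcases d86 with g9 | g9 | g9 | g9 | g9 | g9
                    · linarith only [e0, g9, u_o0]
                    · linarith only [g2, g7, g9, s2, u_f13_0, u_f13_3, u_f33_4, u_o2]
                    · linarith only [g7, g9, s2, u_f33_4]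
                    · linarith only [g9, u_a1, u_o0]
                    · rcases d27 with g10 | g10
                      · linarith only [g10, g2, g3, g4, g7, g9, s2, u_f11_0, u_f11_1, u_f13_0, u_f13_3, u_f33_4, u_o2]
                      · linarith only [g10, g2, g4, g7, g9, s2, u_f11_0, u_f11_1, u_f13_0, u_f13_3, u_f33_4, u_o2]
                    · linarith only [g1, g9]
                · linarith only [g7, s3, u_f33_7]
              · linarith only [g6, u_a4, u_f23_5, u_o2]
            · linarith only [g5, u_a4, u_f23_1, u_o2]
          · rcases d35 with g5 | g5 | g5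
            · rcases d43 with g6 | g6 | g6
              · linarith only [g5, g6, u_a1, u_a3, u_f23_5]
              · rcases d67 with g7 | g7 | g7 | g7 | g7
                · linarith only [e0, g7]
                · linarith only [e2, g7]
                · rcases d51 with g8 | g8
                  · linarith only [g7, g8, s1, u_f11_0, u_f22_0, u_o0]
                  · linarith only [g5, g7, g8, s1, u_a4, u_f11_0, u_f22_0, u_f23_1, u_o0]
                · linarith only [g7, s2, u_f22_4, u_o1]
                · rcases d59 with g8 | g8
                  · linarith only [g1, g7, g8, s2, u_f11_2, u_f22_4, u_o1]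
                  · rcases d63 with g9 | g9 | g9 | g9 | g9
                    · linarith only [e0, g9]
                    · linarith only [e0, g1, g2, g7, g8, g9, s1, u_f11_1, u_f11_2, u_f13_0, u_f13_3, u_f22_1, u_f33_1]
                    · linarith only [g1, g2, g3, g7, g8, g9, s1, u_f11_0, u_f11_1, u_f11_2, u_f13_0, u_f13_3, u_f33_1]
                    · rcases d61 with g10 | g10 | g10 | g10 | g10 | g10
                      · linarith only [e0, g10]
                      · linarith only [e0, g10, u_o0]
                      · linarith only [e1, g1, g10, g7, g8, s2, u_f11_2, u_f22_4, u_f33_4, u_o1]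
                      · linarith only [g1, g10, g2, g7, g8, g9, s2, u_f11_0, u_f11_1, u_f11_2, u_f13_3, u_f33_4, u_o1]
                      · linarith only [g10, g2, s2, u_f22_4, u_f33_4, u_o1, u_o2]
                      · rcases d19 with g11 | g11
                        · linarith only [g1, g10, g11, g2, g7, s2, s3, u_f11_2, u_f22_4, u_f22_6, u_f33_4, u_o1]
                        · linarith only [g10, g11, s3, u_b3, u_f11_0, u_f11_1, u_f11_2, u_f22_4, u_f22_6, u_f33_7]
                    · linarith only [g9, s3, u_f33_7]
              · linarith only [g6, u_a4, u_f23_5, u_o2]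
            · rcases d43 with g6 | g6 | g6
              · linarith only [g4, g5, g6, u_b3, u_f23_5]
              · rcases d67 with g7 | g7 | g7 | g7 | g7
                · linarith only [e0, g7]
                · linarith only [e2, g7]
                · rcases d51 with g8 | g8
                  · linarith only [g7, g8, s1, u_f11_0, u_f22_0, u_o0]
                  · linarith only [g7, g8, s1, u_a4, u_f11_0, u_f22_1, u_o0, u_o1]
                · linarith only [g7, s2, u_f22_4, u_o1]
                · rcases d59 with g8 | g8
                  · linarith only [g1, g7, g8, s2, u_f11_2, u_f22_4, u_o1]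
                  · rcases d63 with g9 | g9 | g9 | g9 | g9
                    · linarith only [e0, g9]
                    · linarith only [e0, g1, g2, g7, g8, g9, s1, u_f11_1, u_f11_2, u_f13_0, u_f13_3, u_f22_1, u_f33_1]
                    · linarith only [g1, g2, g3, g7, g8, g9, s1, u_f11_0, u_f11_1, u_f11_2, u_f13_0, u_f13_3, u_f33_1]
                    · rcases d61 with g10 | g10 | g10 | g10 | g10 | g10
                      · linarith only [e0, g10]
                      · linarith only [e0, g10, u_o0]
                      · linarith only [e1, g1, g10, g7, g8, s2, u_f11_2, u_f22_4, u_f33_4, u_o1]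
                      · linarith only [g1, g10, g2, g7, g8, g9, s2, u_f11_0, u_f11_1, u_f11_2, u_f13_3, u_f33_4, u_o1]
                      · linarith only [g10, g2, s2, u_f22_4, u_f33_4, u_o1, u_o2]
                      · rcases d19 with g11 | g11
                        · linarith only [g1, g10, g11, g2, g7, s2, s3, u_f11_2, u_f22_4, u_f22_6, u_f33_4, u_o1]
                        · linarith only [g10, g11, s3, u_b3, u_f11_0, u_f11_1, u_f11_2, u_f22_4, u_f22_6, u_f33_7]
                    · linarith only [g9, s3, u_f33_7]
              · linarith only [g6, u_a4, u_f23_5, u_o2]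
            · linarith only [g5, u_a4, u_f23_1, u_o2]
  · linarith only [g0, u_a2, u_a4, u_f13_0, u_o2]

end Pool.Agent.Helper10.TQ
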